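import Pool.Agent.Helper1.RK.StE

/-!
# Project RK, module EM1: one variable singled out
-/

set_option autoImplicit false

namespace Pool.Agent.Helper3.RK

open Pool.Agent.Helper1.RK

section

variable (F : Type) [Field F] (I : Type) (i : I)

/-- constants -/
private noncomputable def cst : F →+* RatFunc (RF F {j : I // j ≠ i}) :=
  RatFunc.C.comp ((algebraMap (MvPolynomial {j : I // j ≠ i} F) (RF F {j : I // j ≠ i})).comp
    MvPolynomial.C)

open Classical in
/-- the images of the variables -/
private noncomputable def gen (j : I) : RatFunc (RF F {j : I // j ≠ i}) :=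
  if h : j = i then RatFunc.X else RatFunc.C (rv F (⟨j, h⟩ : {j : I // j ≠ i}))

private noncomputable def rho : MvPolynomial I F →+* RatFunc (RF F {j : I // j ≠ i}) :=
  MvPolynomial.eval₂Hom (cst F I i) (gen F I i)

open Classical in
/-- the other description -/
private noncomputable def iso : MvPolynomial I F →+* Polynomial (MvPolynomial {j : I // j ≠ i} F) :=
  ((MvPolynomial.optionEquivLeft F {j : I // j ≠ i}).toRingEquiv.toRingHom).comp
    (MvPolynomial.renameEquiv F (Equiv.optionSubtypeNe i).symm).toRingEquiv.toRingHom

private theorem iso_inj : Function.Injective (iso F I i) := by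
  classical
  intro a b h
  exact (MvPolynomial.renameEquiv F (Equiv.optionSubtypeNe i).symm).injective
    ((MvPolynomial.optionEquivLeft F {j : I // j ≠ i}).injective h)

private noncomputable def emb : Polynomial (MvPolynomial {j : I // j ≠ i} F) →+*
    RatFunc (RF F {j : I // j ≠ i}) :=
  (algebraMap (Polynomial (RF F {j : I // j ≠ i})) (RatFunc (RF F {j : I // j ≠ i}))).comp
    (Polynomial.mapRingHom (algebraMap (MvPolynomial {j : I // j ≠ i} F) (RF F {j : I // j ≠ i})))

private theorem emb_inj : Function.Injective (emb F I i) := by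
  unfold emb
  rw [RingHom.coe_comp]
  refine (RatFunc.algebraMap_injective _).comp ?_
  exact Polynomial.map_injective _ (IsFractionRing.injective _ _)

private theorem rho_eq : rho F I i = (emb F I i).comp (iso F I i) := by
  classical
  refine MvPolynomial.ringHom_ext ?_ ?_
  · intro c
    simp [rho, cst, emb, iso, MvPolynomial.optionEquivLeft_C]
  · intro j
    by_cases h : j = i
    · subst h
      simp [rho, gen, emb, iso, MvPolynomial.optionEquivLeft_X_none]
    · simp [rho, gen, emb, iso, h, MvPolynomial.optionEquivLeft_X_some, rv]

private theorem rho_inj : Function.Injective (rho F I i) := by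
  rw [rho_eq, RingHom.coe_comp]
  exact (emb_inj F I i).comp (iso_inj F I i)

private noncomputable def th : RF F I →+* RatFunc (RF F {j : I // j ≠ i}) :=
  IsFractionRing.lift (rho_inj F I i)

private theorem th_map (p : MvPolynomial I F) :
    th F I i (algebraMap (MvPolynomial I F) (RF F I) p) = rho F I i p :=
  IsFractionRing.lift_algebraMap _ _

private theorem th_X : th F I i (rv F i) = RatFunc.X := by
  unfold rv
  rw [th_map]
  simp [rho, gen]

private theorem th_Y (j : I) (h : j ≠ i) :
    th F I i (rv F j) = RatFunc.C (rv F (⟨j, h⟩ : {j : I // j ≠ i})) := by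
  unfold rv
  rw [th_map]
  simp [rho, gen, h, rv]

private theorem th_C (c : F) : th F I i (rc I c) = RatFunc.C (rc _ c) := by
  unfold rc
  rw [th_map]
  simp [rho, cst]

private theorem ren (p : MvPolynomial {j : I // j ≠ i} F) :
    RatFunc.C (algebraMap (MvPolynomial {j : I // j ≠ i} F) (RF F {j : I // j ≠ i}) p) ∈
      (th F I i).fieldRange := by
  induction p using MvPolynomial.induction_on with
  | C a => exact ⟨rc I a, th_C F I i a⟩
  | add p q hp hq =>
    rw [map_add, map_add]
    exact add_mem hp hq
  | mul_X p j hp =>
    rw [map_mul, map_mul]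
    exact mul_mem hp ⟨rv F (j : I), th_Y F I i j j.2⟩

private theorem conC (c : RF F {j : I // j ≠ i}) : RatFunc.C c ∈ (th F I i).fieldRange := by
  obtain ⟨p, q, _, rfl⟩ := IsFractionRing.div_surjective (A := MvPolynomial {j : I // j ≠ i} F) c
  rw [map_div₀]
  exact div_mem (ren F I i p) (ren F I i q)

private theorem polR (p : Polynomial (RF F {j : I // j ≠ i})) :
    algebraMap (Polynomial (RF F {j : I // j ≠ i})) (RatFunc (RF F {j : I // j ≠ i})) p ∈
      (th F I i).fieldRange := by
  induction p using Polynomial.induction_on' with
  | add p q hp hq =>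
    rw [map_add]
    exact add_mem hp hq
  | monomial n a =>
    rw [← Polynomial.C_mul_X_pow_eq_monomial, map_mul, map_pow, RatFunc.algebraMap_C,
      RatFunc.algebraMap_X]
    have hX : (RatFunc.X : RatFunc (RF F {j : I // j ≠ i})) ∈ (th F I i).fieldRange :=
      ⟨rv F i, th_X F I i⟩
    exact mul_mem (conC F I i a) (pow_mem hX n)

private theorem th_surj : Function.Surjective (th F I i) := by
  intro g
  have : g ∈ (th F I i).fieldRange := by
    rw [← RatFunc.num_div_denom g]
    exact div_mem (polR F I i _) (polR F I i _)
  exact this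

end

theorem pEM1 : StEM1 := by
  intro F _ I i
  exact ⟨RingEquiv.ofBijective (th F I i) ⟨(th F I i).injective, th_surj F I i⟩, th_X F I i,
    fun j h => th_Y F I i j h, fun c => th_C F I i c⟩

end Pool.Agent.Helper3.RK
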