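import Pool.Agent.Helper43.RK.StT

set_option autoImplicit false

namespace Pool.Agent.Helper3.RK

open Pool.Agent.Helper43.RK Matrix Matrix.SpecialLinearGroup
open scoped MatrixGroups LinearAlgebra.Projectivization

variable {F : Type} [Field F]

/-- diagonal matrices with two entries are products of transvections -/
theorem diag_decomp {i j : Fin 3} (hij : i ≠ j) (a : F) (ha : a ≠ 0) :
    diag2n hij a ha = SpecialLinearGroup.transvection hij a *
      SpecialLinearGroup.transvection hij.symm (-a⁻¹) *
      SpecialLinearGroup.transvection hij a *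
      SpecialLinearGroup.transvection hij (-1) *
      SpecialLinearGroup.transvection hij.symm 1 *
      SpecialLinearGroup.transvection hij (-1) := by
  apply Subtype.ext
  simp only [coe_mul, transvection_coe, diag2n_coe]
  ext k l
  fin_cases i <;> fin_cases j <;> first
    | exact absurd rfl hij
    | (fin_cases k <;> fin_cases l <;>
        simp [Matrix.mul_apply, Fin.sum_univ_three, Matrix.single_apply, Matrix.one_apply,
          Matrix.diagonal_apply, ha])

theorem induct (P : SpecialLinearGroup (Fin 3) F → Prop)
    (htr : ∀ (i j : Fin 3) (h : i ≠ j) (c : F), P (SpecialLinearGroup.transvection h c))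
    (hmul : ∀ A B, P A → P B → P (A * B)) (A : SpecialLinearGroup (Fin 3) F) : P A := by
  refine diagonal_transvection_induction' P _ (fun i j hij c hc => ?_) htr hmul
  rw [diag_decomp hij c hc]
  exact hmul _ _ (hmul _ _ (hmul _ _ (hmul _ _ (hmul _ _ (htr _ _ _ _) (htr _ _ _ _))
    (htr _ _ _ _)) (htr _ _ _ _)) (htr _ _ _ _)) (htr _ _ _ _)

open scoped commutatorElement

/-- transvections are commutators -/
theorem tr_comm {i j k : Fin 3} (hij : i ≠ j) (hik : i ≠ k) (hkj : k ≠ j) (c : F) :
    ⁅SpecialLinearGroup.transvection hik c, SpecialLinearGroup.transvection hkj (1 : F)⁆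
      = SpecialLinearGroup.transvection hij c := by
  rw [commutatorElement_def, SpecialLinearGroup.transvection_inv,
    SpecialLinearGroup.transvection_inv]
  apply Subtype.ext
  simp only [coe_mul, transvection_coe]
  ext m l
  fin_cases i <;> fin_cases j <;> fin_cases k <;> first
    | exact absurd rfl hij
    | exact absurd rfl hik
    | exact absurd rfl hkj
    | (fin_cases m <;> fin_cases l <;>
        simp [Matrix.mul_apply, Fin.sum_univ_three, Matrix.single_apply, Matrix.one_apply])

theorem third {i j : Fin 3} (hij : i ≠ j) : ∃ k, i ≠ k ∧ k ≠ j := by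
  revert i j
  decide

theorem comm_top : commutator (SpecialLinearGroup (Fin 3) F) = ⊤ := by
  refine le_antisymm le_top fun A _ => ?_
  refine induct (fun A => A ∈ commutator (SpecialLinearGroup (Fin 3) F)) ?_
    (fun _ _ => mul_mem) A
  intro i j h c
  obtain ⟨k, hik, hkj⟩ := third h
  rw [← tr_comm h hik hkj c]
  exact Subgroup.commutator_mem_commutator (Subgroup.mem_top _) (Subgroup.mem_top _)

theorem iSup_line : (⨆ p : ℙ F (Fin 3 → F), lineStab p.submodule)
    = (⊤ : Subgroup (SpecialLinearGroup (Fin 3) F)) := by
  refine le_antisymm le_top fun A _ => ?_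
  refine induct (fun A => A ∈ (⨆ p : ℙ F (Fin 3 → F), lineStab p.submodule)) ?_
    (fun _ _ => mul_mem) A
  intro i j h c
  have h1 := SL2Gen.transvection_mem_lineStab h c
  rw [← Projectivization.submodule_mk (K := F) _ (Pi.single_ne_zero_iff.2 one_ne_zero)] at h1
  exact (le_iSup (fun p : ℙ F (Fin 3 → F) => lineStab p.submodule) _) h1

theorem iSup_iwa : iSup (PSL.iwasawaT (F := F) (ι := Fin 3)) = ⊤ := by
  have step1 : iSup (PSL.iwasawaT (F := F) (ι := Fin 3)) =
      Subgroup.map (QuotientGroup.mk' (Subgroup.center (Matrix.SpecialLinearGroup (Fin 3) F)))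
        (⨆ p : ℙ F (Fin 3 → F),
          Matrix.SpecialLinearGroup.lineStab (F := F) (ι := Fin 3) p.submodule) := by
    rw [Subgroup.map_iSup]
  rw [step1, iSup_line]
  exact Subgroup.map_top_of_surjective _ (QuotientGroup.mk'_surjective _)

open MulAction

/-- the Iwasawa structure -/
noncomputable def iwa : IwasawaStructure (Matrix.ProjectiveSpecialLinearGroup (Fin 3) F)
    (ℙ F (Fin 3 → F)) where
  T := PSL.iwasawaT
  is_comm p := by
    have hSL : IsMulCommutative (lineStab (F := F) (ι := Fin 3) p.submodule) := by
      rw [← Projectivization.mk_rep p, Projectivization.submodule_mk]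
      exact lineStab_isMulCommutative_of_span p.rep p.rep_nonzero
    exact Subgroup.map_isMulCommutative _ _
  is_conj g p := by
    obtain ⟨g_SL, rfl⟩ := QuotientGroup.mk_surjective g
    rw [Matrix.ProjectiveSpecialLinearGroup.smul_proj_mk]
    change Subgroup.map _ _ = _
    rw [PSL.smul_submodule, Matrix.SpecialLinearGroup.lineStab_smul,
      PSL.iwasawaT_map_conj]
  is_generator := iSup_iwa

theorem psl_comm_top : commutator (Matrix.ProjectiveSpecialLinearGroup (Fin 3) F) = ⊤ := by
  have : Group.IsPerfect (SpecialLinearGroup (Fin 3) F) := ⟨comm_top⟩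
  have : Group.IsPerfect (Matrix.ProjectiveSpecialLinearGroup (Fin 3) F) := inferInstance
  exact this.commutator_eq_top

theorem hSIM : StSIM := by
  intro F _
  exact MulAction.IwasawaStructure.isSimpleGroup psl_comm_top iwa inferInstance

end Pool.Agent.Helper3.RK
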